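import Pool.Agent.Lib.MP_ba72f5_co.NearFinal

set_option autoImplicit false

namespace Pool.Agent.Results.MP_ba72f5_co.NearDecomposition

open Pool.Agent.Lib.MP_ba72f5_co.Cover

/-- If every `k r`-graph has `t` perfect matchings whose removal leaves no odd cycle, then every
`r`-graph has `t` perfect matchings such that two vertices joined by `m` edges are matched by
at least `k m - 2` and at most `k m + 2 + t - k r` of them. -/
theorem result (k r t : ℕ)
    (h : ∀ (V E : Type) [Fintype V] [Fintype E] (ends : E → Sym2 V), RGraph (k * r) ends →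
      ∃ M : Fin t → Set E, (∀ i, PerfectMatching ends (M i)) ∧
        ∀ (v : V) (w : (SimpleGraph.fromEdgeSet (ends '' {e | ∀ i, e ∉ M i})).Walk v v),
          w.IsCycle → Even w.length)
    (V E : Type) [Fintype V] [Fintype E] (ends : E → Sym2 V) (hG : RGraph r ends) :
    ∃ M : Fin t → Set E, (∀ i, PerfectMatching ends (M i)) ∧ ∀ a b : V, a ≠ b →
      k * {e | ends e = s(a, b)}.ncard ≤ {i | ∃ e ∈ M i, ends e = s(a, b)}.ncard + 2 ∧
      {i | ∃ e ∈ M i, ends e = s(a, b)}.ncard + k * r ≤
        k * {e | ends e = s(a, b)}.ncard + 2 + t :=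
  near h V E ends hG

end Pool.Agent.Results.MP_ba72f5_co.NearDecomposition
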