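import Pool.Agent.Lib.MP_ba72f5_co.GlueE

set_option autoImplicit false

namespace Pool.Agent.Results.MP_ba72f5_co.PetersenGluing

open Pool.Agent.Lib.MP_ba72f5_co.Cover

/-- For the `r`-graphs built from class 1 pieces and Fulkerson pieces by gluing along cuts and by
colouring, the least number of perfect matchings that always suffices to leave no odd cycle is
exactly `r - 1`. -/
theorem result (r : ℕ) (hr : 3 ≤ r) :
    IsLeast {t : ℕ | ∀ (V E : Type) [Fintype V] [Fintype E] (ends : E → Sym2 V),
      RGraph r ends → Built r ends →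
        ∃ M : Fin t → Set E, (∀ i, PerfectMatching ends (M i)) ∧
          ∀ (v : V) (w : (SimpleGraph.fromEdgeSet (ends '' {e | ∀ i, e ∉ M i})).Walk v v),
            w.IsCycle → Even w.length} (r - 1) := by
  obtain ⟨s, rfl⟩ : ∃ s, r = s + 3 := ⟨r - 3, by omega⟩
  refine ⟨fun V E _ _ ends hG hB => ?_, fun t ht => ?_⟩
  · show ∃ M : Fin (s + 2) → Set E, _
    rcases isEmpty_or_nonempty V with hV | ⟨⟨v⟩⟩
    · exact ⟨fun _ => ∅, fun _ v => hV.elim v, fun v => hV.elim v⟩
    · obtain ⟨S, hs, hc⟩ := Set.exists_subset_card_eq (s := {e | v ∈ ends e}) (n := s + 2)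
        (by rw [hG.2.1 v]; omega)
      have e : Fin (s + 2) ≃ S := (Finite.equivFinOfCardEq (by rw [Nat.card_coe_set_eq, hc])).symm
      refine (Built.inv (t := s + 2) hB v (Subtype.val ∘ e) (fun j => hs (e j).2) ?_).final
      unfold Few
      rw [Set.ncard_range_of_injective (Subtype.val_injective.comp e.injective)]
      simp
  · obtain ⟨V, E, _, _, ends, h1, h2, h3⟩ := sharp s
    obtain ⟨M, m1, m2⟩ := ht V E ends h1 h2
    exact h3 t M m1 m2

end Pool.Agent.Results.MP_ba72f5_co.PetersenGluing
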